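import Pool.Agent.Y314.CT.Stm

set_option autoImplicit false

/-!
# The limit map along an ultrafilter (project CT, MP_616471_al)
-/

namespace Pool.Agent.Y328.CT

open Filter Topology Pool.Agent.Y314.CT

section general

variable {I : Type} {t s : ℝ}

theorem exists_lim {E : Type} [NormedAddCommGroup E] [ProperSpace E] (U : Ultrafilter I)
    (f : I → E) (R : ℝ) (hf : ∀ i, ‖f i‖ ≤ R) : ∃ L : E, Tendsto f U (𝓝 L) := by
  have hc : IsCompact (Metric.closedBall (0 : E) R) := isCompact_closedBall 0 R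
  obtain ⟨L, -, hL⟩ := hc.ultrafilter_le_nhds (U.map f) (by
    rw [le_principal_iff]
    refine Ultrafilter.mem_coe.mpr (Ultrafilter.mem_map.mpr ?_)
    refine Filter.Eventually.of_forall fun i => ?_
    show f i ∈ Metric.closedBall (0 : E) R
    rw [mem_closedBall_zero_iff]
    exact hf i)
  exact ⟨L, hL⟩

theorem continuous_om (s : ℝ) : Continuous fun p : HV × HV => om s p.1 p.2 := by
  unfold om sy
  fun_prop

theorem tendsto_dd {F : Filter I} {g h : I → NT s} {g0 h0 : NT s}
    (h1 : Tendsto (fun i => (g i).v) F (𝓝 g0.v)) (h2 : Tendsto (fun i => (g i).z) F (𝓝 g0.z))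
    (h3 : Tendsto (fun i => (h i).v) F (𝓝 h0.v)) (h4 : Tendsto (fun i => (h i).z) F (𝓝 h0.z)) :
    Tendsto (fun i => dd (g i) (h i)) F (𝓝 (dd g0 h0)) := by
  have e : ∀ g h : NT s, dd g h = max ‖h.v - g.v‖
      (Real.sqrt (‖h.z - g.z - (1 / 2 : ℝ) • om s g.v h.v‖ / (3 + |s|))) := by
    intro g h
    unfold dd nn
    rw [inv_mul_v, inv_mul_z]
  simp only [e]
  have hom : Tendsto (fun i => om s (g i).v (h i).v) F (𝓝 (om s g0.v h0.v)) :=
    ((continuous_om s).tendsto (g0.v, h0.v)).comp (h1.prodMk_nhds h3)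
  refine (h3.sub h1).norm.max ?_
  refine (Real.continuous_sqrt.tendsto _).comp ?_
  exact (((h4.sub h2).sub (hom.const_smul _)).norm).div_const _

end general

theorem t_LIM (hSEL : S_SEL) : S_LIM := by
  intro t s φ K hK hφ
  classical
  -- the scales
  have hsel : ∀ al : Finset (NT t) × ℕ, ∃ k : ℕ, al.2 ≤ k ∧ ∃ x : NT t,
      ∀ h ∈ al.1, ∀ (i : Fin 4) (b : Bool),
        ‖(φ (x * dil (2 ^ k) (h * ge t i b 2))).v + (φ (x * dil (2 ^ k) h)).v
            - (2 : ℝ) • (φ (x * dil (2 ^ k) (h * ge t i b 1))).v‖ ≤ 1 / ((al.2 : ℝ) + 1) * 2 ^ k :=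
    fun al => hSEL t s φ K hK (fun a b => (hφ a b).2) al.1 _ (by positivity) al.2
  choose k hk x hx using hsel
  set P : Finset (NT t) × ℕ → NT t → NT s := fun al h =>
    dil (1 / 2 ^ k al) ((φ (x al))⁻¹ * φ (x al * dil (2 ^ k al) h)) with hP
  have hpow : ∀ al, (0 : ℝ) < 2 ^ k al := fun al => by positivity
  have hdd : ∀ al a b, dd (P al a) (P al b) =
      1 / 2 ^ k al * dd (φ (x al * dil (2 ^ k al) a)) (φ (x al * dil (2 ^ k al) b)) := by
    intro al a b
    simp only [hP]
    rw [dd_dil (by positivity), dd_mul_left]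
  have hdd2 : ∀ al a b, dd (x al * dil (2 ^ k al) a) (x al * dil (2 ^ k al) b) =
      2 ^ k al * dd a b := by
    intro al a b
    rw [dd_mul_left, dd_dil (by positivity)]
  have hlo : ∀ al a b, dd a b ≤ K * dd (P al a) (P al b) + K / 2 ^ k al := by
    intro al a b
    have h1 := (hφ (x al * dil (2 ^ k al) a) (x al * dil (2 ^ k al) b)).1
    rw [hdd2] at h1
    rw [hdd]
    have h2 := hpow al
    have h3 : dd a b = (2 ^ k al * dd a b) / 2 ^ k al := by field_simp
    rw [h3]
    calc (2 ^ k al * dd a b) / 2 ^ k al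
        ≤ (K * dd (φ (x al * dil (2 ^ k al) a)) (φ (x al * dil (2 ^ k al) b)) + K) / 2 ^ k al := by
          gcongr
      _ = _ := by ring
  have hup : ∀ al a b, dd (P al a) (P al b) ≤ K * dd a b + K / 2 ^ k al := by
    intro al a b
    have h1 := (hφ (x al * dil (2 ^ k al) a) (x al * dil (2 ^ k al) b)).2
    rw [hdd2] at h1
    rw [hdd]
    have h2 := hpow al
    calc 1 / 2 ^ k al * dd (φ (x al * dil (2 ^ k al) a)) (φ (x al * dil (2 ^ k al) b))
        ≤ 1 / 2 ^ k al * (K * (2 ^ k al * dd a b) + K) := by gcongr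
      _ = _ := by field_simp
  have hone : ∀ al, P al 1 = 1 := by
    intro al
    simp only [hP]
    rw [dil_one', mul_one, inv_mul_cancel, dil_one']
  have hnn : ∀ al h, nn (P al h) ≤ K * nn h + K := by
    intro al h
    have h1 := hup al 1 h
    rw [hone] at h1
    unfold dd at h1
    simp only [inv_one, one_mul] at h1
    refine h1.trans ?_
    have h2 : K / 2 ^ k al ≤ K := div_le_self hK.le (one_le_pow₀ (by norm_num))
    linarith
  -- the ultrafilter
  set U : Ultrafilter (Finset (NT t) × ℕ) := Ultrafilter.of atTop with hU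
  have hUge : ∀ (h : NT t) (N : ℕ), ∀ᶠ al in (U : Filter (Finset (NT t) × ℕ)), h ∈ al.1 ∧ N ≤ al.2 := by
    intro h N
    have h1 : ∀ᶠ al : Finset (NT t) × ℕ in atTop, ({h}, N) ≤ al := eventually_ge_atTop _
    have h2 := h1.filter_mono (Ultrafilter.of_le (atTop : Filter (Finset (NT t) × ℕ)))
    refine h2.mono fun al hal => ?_
    exact ⟨hal.1 (Finset.mem_singleton_self h), hal.2⟩
  have hsnd : Tendsto (fun al : Finset (NT t) × ℕ => al.2) U atTop :=
    tendsto_atTop.mpr fun N => (hUge 1 N).mono fun al h => h.2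
  have hKk : Tendsto (fun al => K / 2 ^ k al) U (𝓝 0) := by
    have h1 : Tendsto (fun n : ℕ => K * (1 / 2 : ℝ) ^ n) atTop (𝓝 0) := by
      have := (tendsto_pow_atTop_nhds_zero_of_lt_one (r := (1 / 2 : ℝ)) (by norm_num)
        (by norm_num)).const_mul K
      simpa using this
    refine squeeze_zero (fun al => by positivity) (fun al => ?_) (h1.comp hsnd)
    show K / 2 ^ k al ≤ K * (1 / 2 : ℝ) ^ al.2
    rw [one_div, inv_pow, ← div_eq_mul_inv]
    exact div_le_div_of_nonneg_left hK.le (by positivity) (pow_le_pow_right₀ (by norm_num) (hk al))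
  have hlimv : ∀ h : NT t, ∃ L : HV, Tendsto (fun al => (P al h).v) U (𝓝 L) := fun h =>
    exists_lim U _ (K * nn h + K) fun al => (norm_v_le _).trans (hnn al h)
  have hlimz : ∀ h : NT t, ∃ L : ZV, Tendsto (fun al => (P al h).z) U (𝓝 L) := fun h =>
    exists_lim U _ ((3 + |s|) * (K * nn h + K) ^ 2) fun al => by
      refine (norm_z_le _).trans ?_
      refine mul_le_mul_of_nonneg_left ?_ (bt_pos s).le
      exact pow_le_pow_left₀ (nn_nonneg _) (hnn al h) 2
  choose Lv hLv using hlimv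
  choose Lz hLz using hlimz
  have htd : ∀ a b, Tendsto (fun al => dd (P al a) (P al b)) U
      (𝓝 (dd (⟨Lv a, Lz a⟩ : NT s) ⟨Lv b, Lz b⟩)) := fun a b =>
    tendsto_dd (hLv a) (hLz a) (hLv b) (hLz b)
  refine ⟨fun h => ⟨Lv h, Lz h⟩, ⟨hK, ?_, ?_, ?_⟩, ?_⟩
  · refine ext' ?_ ?_
    · have h1 := hLv 1
      simp only [hone] at h1
      exact tendsto_nhds_unique h1 tendsto_const_nhds
    · have h1 := hLz 1
      simp only [hone] at h1
      exact tendsto_nhds_unique h1 tendsto_const_nhds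
  · intro a b
    have h1 : Tendsto (fun al => K * dd (P al a) (P al b) + K / 2 ^ k al) U
        (𝓝 (K * dd (⟨Lv a, Lz a⟩ : NT s) ⟨Lv b, Lz b⟩ + 0)) := ((htd a b).const_mul K).add hKk
    rw [add_zero] at h1
    exact ge_of_tendsto' h1 fun al => hlo al a b
  · intro a b
    have h1 : Tendsto (fun al => K * dd a b + K / 2 ^ k al) U (𝓝 (K * dd a b + 0)) :=
      tendsto_const_nhds.add hKk
    rw [add_zero] at h1
    exact le_of_tendsto_of_tendsto' (htd a b) h1 fun al => hup al a b
  · intro h i b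
    have h1 : Tendsto (fun al => (P al (h * ge t i b 2)).v + (P al h).v
        - (2 : ℝ) • (P al (h * ge t i b 1)).v) U
        (𝓝 (Lv (h * ge t i b 2) + Lv h - (2 : ℝ) • Lv (h * ge t i b 1))) :=
      ((hLv _).add (hLv _)).sub ((hLv _).const_smul _)
    have h2 : Tendsto (fun al : Finset (NT t) × ℕ => 1 / ((al.2 : ℝ) + 1)) U (𝓝 0) :=
      tendsto_one_div_add_atTop_nhds_zero_nat.comp hsnd
    have hv : ∀ al g, (P al g).v =
        (1 / 2 ^ k al : ℝ) • ((φ (x al * dil (2 ^ k al) g)).v - (φ (x al)).v) := by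
      intro al g
      simp only [hP]
      rw [dil_v, inv_mul_v]
    have h3 : ∀ᶠ al in (U : Filter (Finset (NT t) × ℕ)), ‖(P al (h * ge t i b 2)).v + (P al h).v
        - (2 : ℝ) • (P al (h * ge t i b 1)).v‖ ≤ 1 / ((al.2 : ℝ) + 1) := by
      refine (hUge h 0).mono fun al hal => ?_
      have h4 := hx al h hal.1 i b
      have h5 : (P al (h * ge t i b 2)).v + (P al h).v - (2 : ℝ) • (P al (h * ge t i b 1)).v =
          (1 / 2 ^ k al : ℝ) • ((φ (x al * dil (2 ^ k al) (h * ge t i b 2))).v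
            + (φ (x al * dil (2 ^ k al) h)).v
            - (2 : ℝ) • (φ (x al * dil (2 ^ k al) (h * ge t i b 1))).v) := by
        rw [hv, hv, hv]
        module
      rw [h5, norm_smul, Real.norm_of_nonneg (by positivity)]
      have h6 := hpow al
      calc (1 / 2 ^ k al : ℝ) * ‖(φ (x al * dil (2 ^ k al) (h * ge t i b 2))).v
            + (φ (x al * dil (2 ^ k al) h)).v
            - (2 : ℝ) • (φ (x al * dil (2 ^ k al) (h * ge t i b 1))).v‖
          ≤ (1 / 2 ^ k al : ℝ) * (1 / ((al.2 : ℝ) + 1) * 2 ^ k al) := by gcongr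
        _ = _ := by field_simp
    have h7 := le_of_tendsto_of_tendsto h1.norm h2 h3
    have h8 := norm_le_zero_iff.mp h7
    exact sub_eq_zero.mp h8

end Pool.Agent.Y328.CT
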