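import Pool.Agent.Y314.CT.Stm

set_option autoImplicit false

/-!
# Cayley graph distance and word norm (project CT, MP_616471_al)
-/

namespace Pool.Agent.Y328.CT

open Pool.Agent.Y314.CT

section cayley

variable {H : Type} [Group H] {n : ℕ}

/-- The Cayley graph. -/
abbrev CG (S : Set H) : SimpleGraph H := SimpleGraph.fromRel (fun g h : H => ∃ s ∈ S, h = g * s)

theorem walk_of_list (S : Set H) (gens : Fin n → H) (hg : ∀ i, gens i ∈ S)
    (L : List (Fin n × Bool)) : ∀ g : H,
    ∃ p : (CG S).Walk g (g * FreeGroup.lift gens (FreeGroup.mk L)), p.length ≤ L.length := by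
  induction L with
  | nil =>
    intro g
    have h1 : g * FreeGroup.lift gens (FreeGroup.mk []) = g := by
      have : (FreeGroup.mk [] : FreeGroup (Fin n)) = 1 := rfl
      rw [this, map_one, mul_one]
    rw [h1]
    exact ⟨SimpleGraph.Walk.nil, by simp⟩
  | cons a L ih =>
    intro g
    obtain ⟨i, b⟩ := a
    have h1 : (FreeGroup.mk ((i, b) :: L) : FreeGroup (Fin n)) =
        FreeGroup.mk [(i, b)] * FreeGroup.mk L := by
      rw [FreeGroup.mul_mk]; rfl
    set x := FreeGroup.lift gens (FreeGroup.mk [(i, b)]) with hx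
    rw [h1, map_mul, ← mul_assoc, ← hx]
    have hex := ih (g * x)
    by_cases he : g * x = g
    · rw [he] at hex ⊢
      obtain ⟨p, hp⟩ := hex
      exact ⟨p, hp.trans (by simp)⟩
    · obtain ⟨p, hp⟩ := hex
      have hadj : (CG S).Adj g (g * x) := by
        rw [SimpleGraph.fromRel_adj]
        refine ⟨fun h => he h.symm, ?_⟩
        cases b with
        | true =>
          left
          refine ⟨gens i, hg i, ?_⟩
          have : x = gens i := by rw [hx, FreeGroup.lift_mk]; simp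
          rw [this]
        | false =>
          right
          refine ⟨gens i, hg i, ?_⟩
          have : x = (gens i)⁻¹ := by rw [hx, FreeGroup.lift_mk]; simp
          rw [this]; group
      refine ⟨SimpleGraph.Walk.cons hadj p, ?_⟩
      rw [SimpleGraph.Walk.length_cons, List.length_cons]
      omega

theorem walk_of_word (S : Set H) (gens : Fin n → H) (hg : ∀ i, gens i ∈ S)
    (w : FreeGroup (Fin n)) (g : H) :
    ∃ p : (CG S).Walk g (g * FreeGroup.lift gens w), p.length ≤ w.norm := by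
  have h := walk_of_list S gens hg w.toWord g
  rw [FreeGroup.mk_toWord] at h
  exact h

theorem word_of_walk (S : Set H) (gens : Fin n → H) (hg : ∀ s ∈ S, ∃ i, gens i = s) {g h : H}
    (p : (CG S).Walk g h) : ∃ w : FreeGroup (Fin n), FreeGroup.lift gens w = g⁻¹ * h ∧
      w.norm ≤ p.length := by
  induction p with
  | nil => exact ⟨1, by simp, by simp⟩
  | @cons u v w' hadj p ih =>
    obtain ⟨w, hw, hn⟩ := ih
    rw [SimpleGraph.fromRel_adj] at hadj
    rw [SimpleGraph.Walk.length_cons]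
    rcases hadj.2 with ⟨s, hs, he⟩ | ⟨s, hs, he⟩
    · obtain ⟨i, rfl⟩ := hg s hs
      refine ⟨FreeGroup.of i * w, ?_, ?_⟩
      · rw [map_mul, hw, FreeGroup.lift_apply_of, he]; group
      · have := FreeGroup.norm_mul_le (FreeGroup.of i) w
        rw [FreeGroup.norm_of] at this
        omega
    · obtain ⟨i, rfl⟩ := hg s hs
      refine ⟨(FreeGroup.of i)⁻¹ * w, ?_, ?_⟩
      · rw [map_mul, hw, map_inv, FreeGroup.lift_apply_of, he]; group
      · have := FreeGroup.norm_mul_le (FreeGroup.of i)⁻¹ w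
        rw [FreeGroup.norm_inv_eq, FreeGroup.norm_of] at this
        omega

theorem reach (S : Set H) (gens : Fin n → H) (hg : ∀ i, gens i ∈ S)
    (hsurj : Function.Surjective (FreeGroup.lift gens)) (g h : H) : (CG S).Reachable g h := by
  obtain ⟨w, hw⟩ := hsurj (g⁻¹ * h)
  obtain ⟨p, -⟩ := walk_of_word S gens hg w g
  rw [hw, mul_inv_cancel_left] at p
  exact ⟨p⟩

theorem dist_eq_wn (S : Set H) (gens : Fin n → H) (hg1 : ∀ i, gens i ∈ S)
    (hg2 : ∀ s ∈ S, ∃ i, gens i = s)
    (hsurj : Function.Surjective (FreeGroup.lift gens)) (g h : H) :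
    wn gens (g⁻¹ * h) = (CG S).dist g h := by
  refine le_antisymm ?_ ?_
  · obtain ⟨p, hp⟩ := (reach S gens hg1 hsurj g h).exists_walk_length_eq_dist
    obtain ⟨w, hw, hn⟩ := word_of_walk S gens hg2 p
    rw [← hp]
    exact Nat.sInf_le ⟨w, hw, hn⟩
  · have hne : {k : ℕ | ∃ w : FreeGroup (Fin n), FreeGroup.lift gens w = g⁻¹ * h ∧
        w.norm ≤ k}.Nonempty := by
      obtain ⟨w, hw⟩ := hsurj (g⁻¹ * h)
      exact ⟨w.norm, w, hw, le_rfl⟩
    obtain ⟨w, hw, hn⟩ := Nat.sInf_mem hne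
    have hex := walk_of_word S gens hg1 w g
    rw [hw, mul_inv_cancel_left] at hex
    obtain ⟨p, hp⟩ := hex
    exact (SimpleGraph.dist_le p).trans (hp.trans hn)

end cayley

theorem t_CAY (hRD : S_RD) (hCMP : S_CMP) : S_CAY := by
  intro t H _ S hS hcl ⟨φ, K, C, hK, hφ, hsur⟩
  classical
  obtain ⟨rd, hrd1, hrd2⟩ := hRD t
  obtain ⟨-, C1, hC1, hcmp⟩ := hCMP t
  set gens : Fin hS.toFinset.card → H := fun i => ((hS.toFinset.equivFin.symm i : hS.toFinset) : H)
    with hgens
  have hg1 : ∀ i, gens i ∈ S := fun i => by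
    have := (hS.toFinset.equivFin.symm i).2
    rwa [Set.Finite.mem_toFinset] at this
  have hg2 : ∀ s ∈ S, ∃ i, gens i = s := fun s hs =>
    ⟨hS.toFinset.equivFin ⟨s, hS.mem_toFinset.mpr hs⟩, by simp [hgens]⟩
  have hsurj : Function.Surjective (FreeGroup.lift gens) := by
    rw [← MonoidHom.range_eq_top, ← top_le_iff, ← hcl, Subgroup.closure_le]
    intro s hs
    obtain ⟨i, rfl⟩ := hg2 s hs
    exact ⟨FreeGroup.of i, FreeGroup.lift_apply_of⟩
  have hconn : (CG S).Connected := by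
    have : Nonempty H := ⟨1⟩
    exact ⟨fun g h => reach S gens hg1 hsurj g h⟩
  have hwn : ∀ g h : H, (wn gens (g⁻¹ * h) : ℝ) = ((CG S).dist g h : ℝ) := fun g h => by
    rw [dist_eq_wn S gens hg1 hg2 hsurj]
  choose ch hch using hsur
  have hC : 0 ≤ C := (Nat.cast_nonneg _).trans (hch 1)
  have hX : ∀ a b : Pt, ((XG t).dist a b : ℝ) ≤ K * (((CG S).dist (φ a) (φ b) : ℝ) + C) := by
    intro a b
    have h1 := (hφ a b).1
    have h2 : ((XG t).dist a b : ℝ) / K ≤ ((CG S).dist (φ a) (φ b) : ℝ) + C := by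
      have : (CG S).dist (φ a) (φ b) =
        (SimpleGraph.fromRel (fun g h : H => ∃ s ∈ S, h = g * s)).dist (φ a) (φ b) := rfl
      rw [this]; linarith
    rw [div_le_iff₀ hK] at h2
    linarith
  have hrr : ∀ a b : NT t, dd (io t (rd a)) (io t (rd b)) ≤ dd a b + 1 := by
    intro a b
    have h1 := hrd1 a
    have h2 := hrd1 b
    have h3 := dd_triangle (io t (rd a)) a (io t (rd b))
    have h4 := dd_triangle a b (io t (rd b))
    rw [dd_comm] at h2
    linarith
  have hrr2 : ∀ a b : NT t, dd a b ≤ dd (io t (rd a)) (io t (rd b)) + 1 := by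
    intro a b
    have h1 := hrd1 a
    have h2 := hrd1 b
    have h3 := dd_triangle a (io t (rd a)) b
    have h4 := dd_triangle (io t (rd a)) (io t (rd b)) b
    rw [dd_comm] at h1
    linarith
  set K' := K * C1 + (2 * K * C1 + C) + 2 * K + (2 * K * C + 1) + 6 * K * C + C with hK'
  have e1 : 0 ≤ K * C1 := by positivity
  have e2 : 0 ≤ K * C := by positivity
  refine ⟨hS.toFinset.card, gens, fun a => φ (rd a), fun h => io t (ch h), K', ?_, hsurj,
    ?_, ?_, ?_, ?_⟩
  · rw [hK']; linarith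
  · intro a b
    rw [hwn]
    have h1 := (hφ (rd a) (rd b)).2
    have h2 := (hcmp (rd a) (rd b)).2
    have h3 := hrr a b
    have h4 : K * ((XG t).dist (rd a) (rd b) : ℝ) ≤ K * (C1 * (dd a b + 1) + C1) :=
      mul_le_mul_of_nonneg_left (h2.trans (by nlinarith)) hK.le
    have h5 : 0 ≤ (K' - K * C1) * dd a b := mul_nonneg (by rw [hK']; linarith) (dd_nonneg a b)
    calc ((CG S).dist (φ (rd a)) (φ (rd b)) : ℝ) ≤ K * ((XG t).dist (rd a) (rd b) : ℝ) + C := h1
      _ ≤ K * (C1 * (dd a b + 1) + C1) + C := by linarith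
      _ = K * C1 * dd a b + (2 * K * C1 + C) := by ring
      _ ≤ K' * dd a b + K' := by
        have : 2 * K * C1 + C ≤ K' := by rw [hK']; linarith
        linarith
  · intro a b
    rw [hwn]
    have h1 := hrr2 a b
    have h2 := (hcmp (rd a) (rd b)).1
    have h3 := hX (rd a) (rd b)
    have h0 : (0 : ℝ) ≤ ((CG S).dist (φ (rd a)) (φ (rd b)) : ℝ) := Nat.cast_nonneg _
    have h5 : 0 ≤ (K' - 2 * K) * ((CG S).dist (φ (rd a)) (φ (rd b)) : ℝ) :=
      mul_nonneg (by rw [hK']; linarith) h0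
    calc dd a b ≤ 2 * (K * (((CG S).dist (φ (rd a)) (φ (rd b)) : ℝ) + C)) + 1 := by linarith
      _ = 2 * K * ((CG S).dist (φ (rd a)) (φ (rd b)) : ℝ) + (2 * K * C + 1) := by ring
      _ ≤ K' * ((CG S).dist (φ (rd a)) (φ (rd b)) : ℝ) + K' := by
        have : 2 * K * C + 1 ≤ K' := by rw [hK']; linarith
        linarith
  · intro g h
    rw [hwn]
    have h2 := (hcmp (ch g) (ch h)).1
    have h3 := hX (ch g) (ch h)
    have h4 : ((CG S).dist (φ (ch g)) (φ (ch h)) : ℝ) ≤ ((CG S).dist g h : ℝ) + 2 * C := by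
      have t1 := hconn.dist_triangle (u := φ (ch g)) (v := g) (w := φ (ch h))
      have t2 := hconn.dist_triangle (u := g) (v := h) (w := φ (ch h))
      have t1' : ((CG S).dist (φ (ch g)) (φ (ch h)) : ℝ) ≤
        ((CG S).dist (φ (ch g)) g : ℝ) + ((CG S).dist g (φ (ch h)) : ℝ) := by exact_mod_cast t1
      have t2' : ((CG S).dist g (φ (ch h)) : ℝ) ≤
        ((CG S).dist g h : ℝ) + ((CG S).dist h (φ (ch h)) : ℝ) := by exact_mod_cast t2
      have t3 : ((CG S).dist (φ (ch g)) g : ℝ) ≤ C := hch g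
      have t4 : ((CG S).dist h (φ (ch h)) : ℝ) ≤ C := by
        rw [SimpleGraph.dist_comm]; exact hch h
      linarith
    have h0 : (0 : ℝ) ≤ ((CG S).dist g h : ℝ) := Nat.cast_nonneg _
    have h5 : 0 ≤ (K' - 2 * K) * ((CG S).dist g h : ℝ) := mul_nonneg (by rw [hK']; linarith) h0
    have h6 : K * (((CG S).dist (φ (ch g)) (φ (ch h)) : ℝ) + C) ≤
        K * (((CG S).dist g h : ℝ) + 2 * C + C) :=
      mul_le_mul_of_nonneg_left (by linarith) hK.le
    calc dd (io t (ch g)) (io t (ch h)) ≤ 2 * (K * (((CG S).dist g h : ℝ) + 2 * C + C)) := by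
          linarith
      _ = 2 * K * ((CG S).dist g h : ℝ) + 6 * K * C := by ring
      _ ≤ K' * ((CG S).dist g h : ℝ) + K' := by
        have : 6 * K * C ≤ K' := by rw [hK']; linarith
        linarith
  · intro h
    rw [hwn, hrd2, SimpleGraph.dist_comm]
    have h1 : ((CG S).dist (φ (ch h)) h : ℝ) ≤ C := hch h
    refine h1.trans ?_
    rw [hK']; linarith

end Pool.Agent.Y328.CT
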